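import Mathlib
import Pool.Agent.Helper626.Quartic.DPRM

set_option autoImplicit false

namespace Pool.Agent.Helper626.Quartic

open MvPolynomial

/-- expressions over the natural numbers -/
inductive NE (V : Type) : Type
  | var : V → NE V
  | const : ℕ → NE V
  | add : NE V → NE V → NE V
  | mul : NE V → NE V → NE V

/-- all variables: the original ones and four auxiliary ones for every expression -/
abbrev Idx (V : Type) : Type := V ⊕ (NE V × Fin 4)

namespace NE

variable {V : Type}

def val (v : V → ℕ) : NE V → ℕ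
  | var i => v i
  | const n => n
  | add a b => val v a + val v b
  | mul a b => val v a * val v b

noncomputable def aux (e : NE V) (i : Fin 4) : MvPolynomial (Idx V) ℤ := X (Sum.inr (e, i))

noncomputable def lin : NE V → MvPolynomial (Idx V) ℤ
  | var i => X (Sum.inl i)
  | const n => C (n : ℤ)
  | add a b => lin a + lin b
  | mul a b => aux (mul a b) 0 - aux (mul a b) 2

noncomputable def bigU (x : V) : MvPolynomial (Idx V) ℤ := C 4 * X (Sum.inl x) + C 18

noncomputable def bigK (k : V) : MvPolynomial (Idx V) ℤ := X (Sum.inl k) + C 3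

noncomputable def cons (x k : V) : NE V → List (MvPolynomial (Idx V) ℤ)
  | var _ => []
  | const _ => []
  | add a b => cons x k a ++ cons x k b
  | mul a b => cons x k a ++ (cons x k b ++
      [aux (mul a b) 0 - (lin a + bigU x) * lin b,
       aux (mul a b) 0 * bigK k - (lin a + bigU x) * aux (mul a b) 1,
       aux (mul a b) 2 - bigU x * lin b,
       aux (mul a b) 2 * bigK k - bigU x * aux (mul a b) 3])

end NE

open NE

variable {V : Type}

/-- evaluation at natural numbers -/
noncomputable abbrev ev {σ : Type} (t : σ → ℕ) (q : MvPolynomial σ ℤ) : ℤ :=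
  eval (fun i => (t i : ℤ)) q

theorem robust {u W v L K x : ℤ} (hK0 : 0 < K) (hK : x ≤ K ^ 2) (hu : K ^ 2 ≤ u)
    (h1 : (W - u * v) ^ 2 < x) (h2 : (W * K - u * L) ^ 2 < x) :
    W - u * v = 0 ∧ W * K - u * L = 0 := by
  have a1 : |W - u * v| < K := abs_lt_of_sq_lt_sq (lt_of_lt_of_le h1 hK) hK0.le
  have a2 : |W * K - u * L| < K := abs_lt_of_sq_lt_sq (lt_of_lt_of_le h2 hK) hK0.le
  set r := W - u * v with hr
  set s := W * K - u * L with hs
  have hd : u * (L - v * K) = r * K - s := by rw [hr, hs]; ring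
  have hb : |r * K - s| < u := by
    have h3 : |r * K - s| ≤ |r| * K + |s| := by
      calc |r * K - s| ≤ |r * K| + |s| := abs_sub _ _
        _ = |r| * K + |s| := by rw [abs_mul, abs_of_pos hK0]
    have h4 : |r| ≤ K - 1 := by omega
    have h5 : |s| ≤ K - 1 := by omega
    nlinarith
  have h0 : r * K - s = 0 := Int.eq_zero_of_abs_lt_dvd ⟨_, hd.symm⟩ hb
  have hr0 : r = 0 := by
    by_contra hne
    have h6 : 1 ≤ |r| := Int.one_le_abs hne
    have h7 : |s| = |r| * K := by
      have : s = r * K := by omega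
      rw [this, abs_mul, abs_of_pos hK0]
    nlinarith
  refine ⟨hr0, ?_⟩
  rw [hr0] at h0
  omega

theorem cons_spec (t : Idx V → ℕ) (x k : V)
    (hK : ((t (Sum.inl x) : ℕ) : ℤ) ≤ (((t (Sum.inl k) : ℕ) : ℤ) + 3) ^ 2)
    (hU : (((t (Sum.inl k) : ℕ) : ℤ) + 3) ^ 2 ≤ 4 * ((t (Sum.inl x) : ℕ) : ℤ) + 18) :
    ∀ e : NE V, (∀ q ∈ cons x k e, (ev t q) ^ 2 < ((t (Sum.inl x) : ℕ) : ℤ)) →
      ev t (lin e) = (val (fun i => t (Sum.inl i)) e : ℤ) ∧ ∀ q ∈ cons x k e, ev t q = 0 := by
  intro e
  induction e with
  | var i => intro _; simp [lin, val, cons]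
  | const n => intro _; simp [lin, val, cons]
  | add a b iha ihb =>
    intro h
    obtain ⟨ha1, ha2⟩ := iha fun q hq => h q (by simp [cons, hq])
    obtain ⟨hb1, hb2⟩ := ihb fun q hq => h q (by simp [cons, hq])
    refine ⟨?_, ?_⟩
    · simp only [lin, map_add, val, Nat.cast_add]
      rw [← ha1, ← hb1]
    · intro q hq
      simp only [cons, List.mem_append] at hq
      rcases hq with hq | hq
      · exact ha2 q hq
      · exact hb2 q hq
  | mul a b iha ihb =>
    intro h
    obtain ⟨ha1, ha2⟩ := iha fun q hq => h q (by simp [cons, hq])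
    obtain ⟨hb1, hb2⟩ := ihb fun q hq => h q (by simp [cons, hq])
    have e0 := h _ (show (aux (mul a b) 0 - (lin a + bigU x) * lin b) ∈ cons x k (mul a b) by
      simp [cons])
    have e1 := h _ (show (aux (mul a b) 0 * bigK k - (lin a + bigU x) * aux (mul a b) 1) ∈
      cons x k (mul a b) by simp [cons])
    have e2 := h _ (show (aux (mul a b) 2 - bigU x * lin b) ∈ cons x k (mul a b) by simp [cons])
    have e3 := h _ (show (aux (mul a b) 2 * bigK k - bigU x * aux (mul a b) 3) ∈
      cons x k (mul a b) by simp [cons])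
    have hUe : ev t (bigU x) = 4 * ((t (Sum.inl x) : ℕ) : ℤ) + 18 := by simp [bigU]
    have hKe : ev t (bigK k) = ((t (Sum.inl k) : ℕ) : ℤ) + 3 := by simp [bigK]
    have hsub : ∀ p q : MvPolynomial (Idx V) ℤ, ev t (p - q) = ev t p - ev t q :=
      fun p q => map_sub _ _ _
    have hmul : ∀ p q : MvPolynomial (Idx V) ℤ, ev t (p * q) = ev t p * ev t q :=
      fun p q => map_mul _ _ _
    have hadd : ∀ p q : MvPolynomial (Idx V) ℤ, ev t (p + q) = ev t p + ev t q :=
      fun p q => map_add _ _ _
    have hA0 : (0 : ℤ) ≤ ev t (lin a) := by rw [ha1]; positivity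
    have hK0 : (0 : ℤ) < ((t (Sum.inl k) : ℕ) : ℤ) + 3 := by positivity
    simp only [hsub, hmul, hadd, hUe, hKe] at e0 e1 e2 e3
    obtain ⟨f0, f1⟩ := robust hK0 hK (by linarith) e0 e1
    obtain ⟨f2, f3⟩ := robust hK0 hK hU e2 e3
    refine ⟨?_, ?_⟩
    · simp only [lin, hsub, val, Nat.cast_mul]
      rw [← ha1, ← hb1]
      linear_combination f0 - f2
    · intro q hq
      simp only [cons, List.mem_append, List.mem_cons, List.not_mem_nil, or_false] at hq
      rcases hq with hq | hq | hq | hq | hq | hq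
      · exact ha2 q hq
      · exact hb2 q hq
      · rw [hq]; simp only [hsub, hmul, hadd, hUe]; exact f0
      · rw [hq]; simp only [hsub, hmul, hadd, hUe, hKe]; exact f1
      · rw [hq]; simp only [hsub, hmul, hUe]; exact f2
      · rw [hq]; simp only [hsub, hmul, hUe, hKe]; exact f3

/-- the intended values of the auxiliary variables -/
def sol (x k : V) (v : V → ℕ) : Idx V → ℕ
  | Sum.inl i => v i
  | Sum.inr (NE.mul a b, i) =>
      if i = 0 then (val v a + (4 * v x + 18)) * val v b
      else if i = 1 then val v b * (v k + 3)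
      else if i = 2 then (4 * v x + 18) * val v b
      else val v b * (v k + 3)
  | Sum.inr (_, _) => 0

theorem sol_spec (x k : V) (v : V → ℕ) : ∀ e : NE V,
    ev (sol x k v) (lin e) = (val v e : ℤ) ∧ ∀ q ∈ cons x k e, ev (sol x k v) q = 0 := by
  intro e
  induction e with
  | var i => simp [lin, val, cons, sol]
  | const n => simp [lin, val, cons]
  | add a b iha ihb =>
    refine ⟨?_, ?_⟩
    · simp only [lin, map_add, val, Nat.cast_add]
      rw [← iha.1, ← ihb.1]
    · intro q hq
      simp only [cons, List.mem_append] at hq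
      rcases hq with hq | hq
      · exact iha.2 q hq
      · exact ihb.2 q hq
  | mul a b iha ihb =>
    have hsub : ∀ p q : MvPolynomial (Idx V) ℤ,
        ev (sol x k v) (p - q) = ev (sol x k v) p - ev (sol x k v) q :=
      fun p q => map_sub _ _ _
    have hmul : ∀ p q : MvPolynomial (Idx V) ℤ,
        ev (sol x k v) (p * q) = ev (sol x k v) p * ev (sol x k v) q :=
      fun p q => map_mul _ _ _
    have hadd : ∀ p q : MvPolynomial (Idx V) ℤ,
        ev (sol x k v) (p + q) = ev (sol x k v) p + ev (sol x k v) q :=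
      fun p q => map_add _ _ _
    have hUe : ev (sol x k v) (bigU x) = 4 * (v x : ℤ) + 18 := by simp [bigU, sol]
    have hKe : ev (sol x k v) (bigK k) = (v k : ℤ) + 3 := by simp [bigK, sol]
    have w0 : ev (sol x k v) (aux (NE.mul a b) 0) =
        ((val v a : ℤ) + (4 * (v x : ℤ) + 18)) * val v b := by
      simp [aux, sol]
    have w1 : ev (sol x k v) (aux (NE.mul a b) 1) = (val v b : ℤ) * ((v k : ℤ) + 3) := by
      simp [aux, sol]
    have w2 : ev (sol x k v) (aux (NE.mul a b) 2) = (4 * (v x : ℤ) + 18) * val v b := by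
      simp [aux, sol]
    have w3 : ev (sol x k v) (aux (NE.mul a b) 3) = (val v b : ℤ) * ((v k : ℤ) + 3) := by
      simp [aux, sol]
    refine ⟨?_, ?_⟩
    · simp only [lin, hsub, val, Nat.cast_mul, w0, w2]
      ring
    · intro q hq
      simp only [cons, List.mem_append, List.mem_cons, List.not_mem_nil, or_false] at hq
      rcases hq with hq | hq | hq | hq | hq | hq
      · exact iha.2 q hq
      · exact ihb.2 q hq
      · rw [hq]; simp only [hsub, hmul, hadd, hUe, w0, iha.1, ihb.1]; ring
      · rw [hq]; simp only [hsub, hmul, hadd, hUe, hKe, w0, w1, iha.1]; ring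
      · rw [hq]; simp only [hsub, hmul, hUe, w2, ihb.1]; ring
      · rw [hq]; simp only [hsub, hmul, hUe, hKe, w2, w3]; ring

theorem td_sub {σ : Type} {p q : MvPolynomial σ ℤ} {d : ℕ} (hp : p.totalDegree ≤ d)
    (hq : q.totalDegree ≤ d) : (p - q).totalDegree ≤ d :=
  (totalDegree_sub p q).trans (max_le hp hq)

theorem td_add {σ : Type} {p q : MvPolynomial σ ℤ} {d : ℕ} (hp : p.totalDegree ≤ d)
    (hq : q.totalDegree ≤ d) : (p + q).totalDegree ≤ d :=
  (totalDegree_add p q).trans (max_le hp hq)

theorem td_mul {σ : Type} {p q : MvPolynomial σ ℤ} {d e f : ℕ} (hp : p.totalDegree ≤ d)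
    (hq : q.totalDegree ≤ e) (h : d + e ≤ f) : (p * q).totalDegree ≤ f :=
  (totalDegree_mul p q).trans ((add_le_add hp hq).trans h)

theorem td_X {σ : Type} (i : σ) {d : ℕ} (h : 1 ≤ d) : (X i : MvPolynomial σ ℤ).totalDegree ≤ d := by
  rw [totalDegree_X]; exact h

theorem td_C {σ : Type} (i : ℤ) {d : ℕ} : (C i : MvPolynomial σ ℤ).totalDegree ≤ d := by
  rw [totalDegree_C]; exact Nat.zero_le _

theorem td_lin (e : NE V) : (lin e).totalDegree ≤ 1 := by
  induction e with
  | var i => exact td_X _ le_rfl
  | const n => exact td_C _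
  | add a b iha ihb => exact td_add iha ihb
  | mul a b _ _ => exact td_sub (td_X _ le_rfl) (td_X _ le_rfl)

theorem td_bigU (x : V) : (bigU x).totalDegree ≤ 1 :=
  td_add (td_mul (td_C _ (d := 0)) (td_X _ le_rfl) le_rfl) (td_C _)

theorem td_bigK (x : V) : (bigK x).totalDegree ≤ 1 :=
  td_add (td_X _ le_rfl) (td_C _)

theorem td_cons (x k : V) (e : NE V) : ∀ q ∈ cons x k e, q.totalDegree ≤ 2 := by
  induction e with
  | var i => intro q hq; simp [cons] at hq
  | const n => intro q hq; simp [cons] at hq
  | add a b iha ihb =>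
    intro q hq
    simp only [cons, List.mem_append] at hq
    rcases hq with hq | hq
    · exact iha q hq
    · exact ihb q hq
  | mul a b iha ihb =>
    intro q hq
    simp only [cons, List.mem_append, List.mem_cons, List.not_mem_nil, or_false] at hq
    rcases hq with hq | hq | hq | hq | hq | hq
    · exact iha q hq
    · exact ihb q hq
    · rw [hq]
      exact td_sub (td_X _ (by norm_num)) (td_mul (td_add (td_lin a) (td_bigU x)) (td_lin b) le_rfl)
    · rw [hq]
      exact td_sub (td_mul (td_X _ le_rfl) (td_bigK k) le_rfl)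
        (td_mul (td_add (td_lin a) (td_bigU x)) (td_X _ le_rfl) le_rfl)
    · rw [hq]
      exact td_sub (td_X _ (by norm_num)) (td_mul (td_bigU x) (td_lin b) le_rfl)
    · rw [hq]
      exact td_sub (td_mul (td_X _ le_rfl) (td_bigK k) le_rfl)
        (td_mul (td_bigU x) (td_X _ le_rfl) le_rfl)

theorem td_sumsq {σ : Type} (L : List (MvPolynomial σ ℤ)) (h : ∀ q ∈ L, q.totalDegree ≤ 2) :
    ((L.map fun q => q ^ 2).sum).totalDegree ≤ 4 := by
  induction L with
  | nil => simp
  | cons a L ih =>
    simp only [List.map_cons, List.sum_cons]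
    refine td_add ?_ (ih fun q hq => h q (by simp [hq]))
    have := h a (by simp)
    exact (totalDegree_pow a 2).trans (by omega)

theorem ev_sumsq {σ : Type} (t : σ → ℕ) (L : List (MvPolynomial σ ℤ)) :
    ev t ((L.map fun q => q ^ 2).sum) = (L.map fun q => (ev t q) ^ 2).sum := by
  induction L with
  | nil => simp
  | cons a L ih =>
    simp only [List.map_cons, List.sum_cons, ev, map_add, map_pow] at ih ⊢
    rw [ih]

theorem sq_le_sumsq {σ : Type} (t : σ → ℕ) (L : List (MvPolynomial σ ℤ)) :
    0 ≤ (L.map fun q => (ev t q) ^ 2).sum ∧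
    ∀ q ∈ L, (ev t q) ^ 2 ≤ (L.map fun q => (ev t q) ^ 2).sum := by
  induction L with
  | nil => simp
  | cons a L ih =>
    simp only [List.map_cons, List.sum_cons]
    refine ⟨by have := ih.1; positivity, ?_⟩
    intro q hq
    rcases List.mem_cons.1 hq with hq | hq
    · subst hq
      have := ih.1
      linarith
    · have := ih.2 q hq
      have h2 : 0 ≤ (ev t a) ^ 2 := by positivity
      linarith

theorem sumsq_zero {σ : Type} (t : σ → ℕ) (L : List (MvPolynomial σ ℤ))
    (h : ∀ q ∈ L, ev t q = 0) : (L.map fun q => (ev t q) ^ 2).sum = 0 := by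
  induction L with
  | nil => simp
  | cons a L ih =>
    simp only [List.map_cons, List.sum_cons]
    rw [ih fun q hq => h q (by simp [hq]), h a (by simp)]
    norm_num

end Pool.Agent.Helper626.Quartic
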