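import Mathlib

set_option autoImplicit false

namespace Pool.Agent.Helper626.Quartic.Lower

open MvPolynomial Finset

/-- A function with integer polynomial divisibility that tends to infinity takes a positive value
which is not prime. -/
theorem not_all_prime (g : ℕ → ℤ) (hdiv : ∀ s t : ℕ, ((s : ℤ) - t) ∣ g s - g t)
    (hinf : ∀ N : ℤ, ∃ T : ℕ, ∀ t ≥ T, N ≤ g t)
    (hprime : ∀ t, 0 < g t → ∃ p : ℕ, p.Prime ∧ g t = p) : False := by
  obtain ⟨T, hT⟩ := hinf 1
  have h0 : 0 < g T := by have := hT T le_rfl; omega
  obtain ⟨p, hp, hgp⟩ := hprime T h0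
  obtain ⟨T', hT'⟩ := hinf (p + 1)
  have hp0 : 1 ≤ p := hp.one_lt.le
  have hs : T' ≤ T + p * T' := by nlinarith
  have h1 : (p : ℤ) + 1 ≤ g (T + p * T') := hT' _ hs
  obtain ⟨q, hq, hgq⟩ := hprime (T + p * T') (by have : (0 : ℤ) ≤ p := by positivity
                                                 omega)
  have h2 : (p : ℤ) ∣ g (T + p * T') - g T := by
    refine Dvd.dvd.trans ⟨(T' : ℤ), ?_⟩ (hdiv (T + p * T') T)
    push_cast
    ring
  have h3 : (p : ℤ) ∣ g (T + p * T') := by
    have := dvd_add h2 (show (p : ℤ) ∣ g T from ⟨1, by rw [hgp]; ring⟩)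
    simpa using this
  rw [hgq] at h3 h1
  have h4 : p ∣ q := by exact_mod_cast h3
  rcases (Nat.dvd_prime hq).1 h4 with h5 | h5
  · exact hp.one_lt.ne' h5
  · subst h5; omega

/-- The special case of polynomials of degree at most two. -/
theorem ray (α β γ : ℤ) (h : 0 < α ∨ (α = 0 ∧ 0 < β))
    (hprime : ∀ t : ℕ, 0 < α * t ^ 2 + β * t + γ →
      ∃ p : ℕ, p.Prime ∧ α * (t : ℤ) ^ 2 + β * t + γ = p) : False := by
  refine not_all_prime (fun t => α * (t : ℤ) ^ 2 + β * t + γ) ?_ ?_ hprime
  · intro s t
    exact ⟨α * (s + t) + β, by ring⟩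
  · intro N
    refine ⟨|β|.toNat + |γ|.toNat + N.natAbs + 1, fun t ht => ?_⟩
    have h1 : |β| + |γ| + |N| + 1 ≤ (t : ℤ) := by
      have : ((|β|.toNat + |γ|.toNat + N.natAbs + 1 : ℕ) : ℤ) ≤ t := by exact_mod_cast ht
      push_cast at this
      simpa using this
    have hb := neg_abs_le β
    have hc := neg_abs_le γ
    have hn := le_abs_self N
    have hb0 := abs_nonneg β
    have hc0 := abs_nonneg γ
    have hn0 := abs_nonneg N
    show N ≤ α * (t : ℤ) ^ 2 + β * t + γ
    rcases h with h | ⟨h, h'⟩
    · have h2 : (t : ℤ) ≤ α * (t : ℤ) ^ 2 + β * t := by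
        have : 1 ≤ α * (t : ℤ) + β := by nlinarith
        nlinarith
      linarith
    · subst h
      nlinarith

section quad

variable {n : ℕ} (c : ℤ) (l : Fin n → ℤ) (b : Fin n → Fin n → ℤ)

/-- quadratic polynomial function on integer vectors -/
def F (y : Fin n → ℤ) : ℤ := c + ∑ i, l i * y i + ∑ i, ∑ j, b i j * (y i * y j)

def Qf (y : Fin n → ℤ) : ℤ := ∑ i, ∑ j, b i j * (y i * y j)

def grad (y : Fin n → ℤ) (i : Fin n) : ℤ := l i + ∑ j, (b i j + b j i) * y j

theorem F_add (y h : Fin n → ℤ) :
    F c l b (y + h) = F c l b y + ∑ i, grad l b y i * h i + Qf b h := by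
  have e1 : ∑ i, ∑ j, b i j * ((y + h) i * (y + h) j) =
      ∑ i, ∑ j, b i j * (y i * y j) + ∑ i, ∑ j, (b i j + b j i) * y j * h i +
        ∑ i, ∑ j, b i j * (h i * h j) := by
    have e2 : ∑ i, ∑ j, (b i j + b j i) * y j * h i =
        ∑ i, ∑ j, b i j * y j * h i + ∑ i, ∑ j, b i j * y i * h j := by
      rw [Finset.sum_comm (f := fun i j => b i j * y i * h j), ← Finset.sum_add_distrib]
      refine Finset.sum_congr rfl fun i _ => ?_
      rw [← Finset.sum_add_distrib]
      exact Finset.sum_congr rfl fun j _ => by ring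
    rw [e2, ← Finset.sum_add_distrib, ← Finset.sum_add_distrib, ← Finset.sum_add_distrib]
    refine Finset.sum_congr rfl fun i _ => ?_
    rw [← Finset.sum_add_distrib, ← Finset.sum_add_distrib, ← Finset.sum_add_distrib]
    exact Finset.sum_congr rfl fun j _ => by simp only [Pi.add_apply]; ring
  unfold F Qf grad
  rw [e1]
  have e3 : ∑ i, l i * (y + h) i = ∑ i, l i * y i + ∑ i, l i * h i := by
    rw [← Finset.sum_add_distrib]
    exact Finset.sum_congr rfl fun j _ => by simp only [Pi.add_apply]; ring
  have e4 : ∑ i, (l i + ∑ j, (b i j + b j i) * y j) * h i =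
      ∑ i, l i * h i + ∑ i, ∑ j, (b i j + b j i) * y j * h i := by
    rw [← Finset.sum_add_distrib]
    refine Finset.sum_congr rfl fun i _ => ?_
    rw [add_mul, Finset.sum_mul]
  rw [e3, e4]
  ring

theorem F_smul (y w : Fin n → ℤ) (t : ℤ) :
    F c l b (y + t • w) = Qf b w * t ^ 2 + (∑ i, grad l b y i * w i) * t + F c l b y := by
  rw [F_add]
  have e1 : ∑ i, grad l b y i * (t • w) i = (∑ i, grad l b y i * w i) * t := by
    rw [Finset.sum_mul]
    exact Finset.sum_congr rfl fun i _ => by simp only [Pi.smul_apply, smul_eq_mul]; ring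
  have e2 : Qf b (t • w) = Qf b w * t ^ 2 := by
    unfold Qf
    rw [Finset.sum_mul]
    refine Finset.sum_congr rfl fun i _ => ?_
    rw [Finset.sum_mul]
    exact Finset.sum_congr rfl fun j _ => by simp only [Pi.smul_apply, smul_eq_mul]; ring
  rw [e1, e2]
  ring

theorem grad_dot (y : Fin n → ℤ) :
    ∑ i, grad l b y i * y i = ∑ i, l i * y i + 2 * Qf b y := by
  unfold grad Qf
  have e2 : ∑ i, ∑ j, (b i j + b j i) * y j * y i =
      2 * ∑ i, ∑ j, b i j * (y i * y j) := by
    have e4 : ∑ i, ∑ j, b j i * (y j * y i) = ∑ i, ∑ j, b i j * (y i * y j) := Finset.sum_comm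
    have e3 : ∑ i, ∑ j, (b i j + b j i) * y j * y i =
        ∑ i, ∑ j, b i j * (y i * y j) + ∑ i, ∑ j, b j i * (y j * y i) := by
      rw [← Finset.sum_add_distrib]
      refine Finset.sum_congr rfl fun i _ => ?_
      rw [← Finset.sum_add_distrib]
      exact Finset.sum_congr rfl fun j _ => by ring
    rw [e4] at e3
    rw [e3]; ring
  rw [← e2, ← Finset.sum_add_distrib]
  refine Finset.sum_congr rfl fun i _ => ?_
  rw [add_mul, Finset.sum_mul]

/-- the size of a vector -/
def sz (a : Fin n → ℕ) : ℕ := ∑ i, a i

def cst (a : Fin n → ℕ) : Fin n → ℤ := fun i => (a i : ℤ)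

/-- records: maximisers of `F` among all vectors of at most their size -/
theorem exists_record (hunb : ∀ N : ℤ, ∃ x : Fin n → ℕ, N ≤ F c l b (cst x)) (N : ℤ) :
    ∃ a : Fin n → ℕ, N ≤ F c l b (cst a) ∧ (∀ x, sz x ≤ sz a → F c l b (cst x) ≤ F c l b (cst a)) ∧
      ∀ x, sz x < sz a → F c l b (cst x) < F c l b (cst a) := by
  classical
  have hex : ∃ R : ℕ, ∃ x : Fin n → ℕ, sz x = R ∧ N ≤ F c l b (cst x) := by
    obtain ⟨x, hx⟩ := hunb N
    exact ⟨_, x, rfl, hx⟩
  obtain ⟨x0, hx0, hx0N⟩ := Nat.find_spec hex
  have hmin := fun m (hm : m < Nat.find hex) => Nat.find_min hex hm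
  set R := Nat.find hex with hR
  have hfin : {x : Fin n → ℕ | sz x ≤ R}.Finite := by
    refine (Set.finite_Iic (fun _ : Fin n => R)).subset fun x hx => ?_
    intro i
    exact (Finset.single_le_sum (f := x) (fun _ _ => Nat.zero_le _) (Finset.mem_univ i)).trans hx
  obtain ⟨a, ha, hmax⟩ := Set.exists_max_image _ (fun x => F c l b (cst x)) hfin
    ⟨x0, le_of_eq hx0⟩
  have haN : N ≤ F c l b (cst a) := hx0N.trans (hmax x0 (le_of_eq hx0))
  have haR : sz a = R := by
    rcases lt_or_eq_of_le (show sz a ≤ R from ha) with h | h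
    · exact absurd ⟨a, rfl, haN⟩ (hmin _ h)
    · exact h
  refine ⟨a, haN, fun x hx => hmax x (by rw [haR] at hx; exact hx), fun x hx => ?_⟩
  rw [haR] at hx
  have := hmin _ hx
  by_contra hc
  push Not at hc
  exact this ⟨x, rfl, haN.trans hc⟩

theorem main (hprime : ∀ x : Fin n → ℕ, 0 < F c l b (cst x) →
      ∃ p : ℕ, p.Prime ∧ F c l b (cst x) = p)
    (hunb : ∀ N : ℤ, ∃ x : Fin n → ℕ, N ≤ F c l b (cst x)) : False := by
  classical
  -- no ascending rays
  have hray : ∀ a w : Fin n → ℕ, ¬ (0 < Qf b (cst w) ∨
      (Qf b (cst w) = 0 ∧ 0 < ∑ i, grad l b (cst a) i * cst w i)) := by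
    intro a w h
    refine ray _ _ (F c l b (cst a)) h fun t ht => ?_
    have e : cst a + (t : ℤ) • cst w = cst (a + t • w) := by
      ext i; simp [cst]
    rw [← F_smul, e] at ht ⊢
    exact hprime _ ht
  have hQ : ∀ w : Fin n → ℕ, Qf b (cst w) ≤ 0 := fun w => by
    by_contra hc
    push Not at hc
    exact hray 0 w (Or.inl hc)
  -- a bound for all the small quantities
  obtain ⟨C, hC⟩ : ∃ C : ℤ, ∀ i j : Fin n, |Qf b (Pi.single j 1 - Pi.single i 1)| ≤ C ∧
      |Qf b (-Pi.single i 1)| ≤ C ∧ |l i| ≤ C := by
    obtain ⟨C, hC⟩ := (Set.finite_range (fun p : Fin n × Fin n =>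
      |Qf b (Pi.single p.2 1 - Pi.single p.1 1)| + |Qf b (-Pi.single p.1 1)| + |l p.1|)).bddAbove
    refine ⟨C, fun i j => ?_⟩
    have := hC ⟨(i, j), rfl⟩
    simp only at this
    have h1 := abs_nonneg (Qf b (Pi.single j 1 - Pi.single i 1))
    have h2 := abs_nonneg (Qf b (-Pi.single i 1))
    have h3 := abs_nonneg (l i)
    exact ⟨by linarith, by linarith, by linarith⟩
  -- the record sequence
  choose A hA1 hA2 hA3 using exists_record c l b hunb
  have grad_bound : ∀ N : ℤ, c < N → ∀ j, grad l b (cst (A N)) j ≤ 2 * C ∧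
      (A N j ≠ 0 → -C ≤ grad l b (cst (A N)) j) := by
    intro N hN
    set a := A N with ha
    have hdown : ∀ i, a i ≠ 0 → -C ≤ grad l b (cst a) i := by
      intro i hi
      have hsz : sz (fun j => if j = i then a i - 1 else a j) < sz a := by
        unfold sz
        refine Finset.sum_lt_sum (fun j _ => ?_) ⟨i, Finset.mem_univ i, ?_⟩
        · split_ifs with h
          · subst h; omega
          · exact le_rfl
        · simp only [if_true]; omega
      have h1 := hA3 N _ hsz
      have e : cst (fun j => if j = i then a i - 1 else a j) = cst a + (-Pi.single i 1) := by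
        ext j
        simp only [cst, Pi.add_apply, Pi.neg_apply, Pi.single_apply]
        split_ifs with h
        · subst h
          have : 1 ≤ a j := by omega
          push_cast [this]; ring
        · ring
      rw [← ha, e, F_add] at h1
      have e2 : ∑ k, grad l b (cst a) k * (-Pi.single i (1 : ℤ) : Fin n → ℤ) k =
          - grad l b (cst a) i := by
        simp [Pi.single_apply]
      rw [e2] at h1
      have h2 := (hC i i).2.1
      have h3 := neg_abs_le (Qf b (-Pi.single i 1))
      linarith
    have hswap : ∀ i j, a i ≠ 0 → grad l b (cst a) j ≤ grad l b (cst a) i + C := by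
      intro i j hi
      by_cases hij : j = i
      · subst hij
        have h2 := (hC j j).1
        have h3 := abs_nonneg (Qf b (Pi.single j 1 - Pi.single j 1))
        linarith
      · have e : cst (fun k => if k = i then a i - 1 else if k = j then a j + 1 else a k) =
            cst a + (Pi.single j 1 - Pi.single i 1) := by
          ext k
          simp only [cst, Pi.add_apply, Pi.sub_apply, Pi.single_apply]
          by_cases hk : k = i
          · subst hk
            have h1 : 1 ≤ a k := by omega
            have h2 : ¬ (k = j) := fun h => hij h.symm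
            simp only [if_true, h2, if_false]
            push_cast [h1]; ring
          · by_cases hk2 : k = j
            · subst hk2
              simp only [hk, if_false, if_true]
              push_cast; ring
            · simp only [hk, hk2, if_false]; ring
        have hsz : sz (fun k => if k = i then a i - 1 else if k = j then a j + 1 else a k) ≤
            sz a := by
          have h1 : ((sz (fun k => if k = i then a i - 1 else if k = j then a j + 1 else a k) : ℕ)
              : ℤ) = sz a := by
            have h2 : ∀ x : Fin n → ℕ, ((sz x : ℕ) : ℤ) = ∑ k, cst x k := fun x => by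
              simp [sz, cst]
            rw [h2, h2, e]
            simp only [Pi.add_apply, Pi.sub_apply, Finset.sum_add_distrib, Finset.sum_sub_distrib]
            simp [Pi.single_apply]
          have : sz (fun k => if k = i then a i - 1 else if k = j then a j + 1 else a k) = sz a := by
            exact_mod_cast h1
          exact this.le
        have h1 := hA2 N _ hsz
        rw [← ha, e, F_add] at h1
        have e2 : ∑ k, grad l b (cst a) k * (Pi.single j (1 : ℤ) - Pi.single i 1 : Fin n → ℤ) k =
            grad l b (cst a) j - grad l b (cst a) i := by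
          simp [Pi.single_apply, mul_sub, Finset.sum_sub_distrib]
        rw [e2] at h1
        have h2 := (hC i j).1
        have h3 := neg_abs_le (Qf b (Pi.single j 1 - Pi.single i 1))
        linarith
    -- some gradient entry on the support is at most C
    have hex : ∃ i, a i ≠ 0 ∧ grad l b (cst a) i ≤ C := by
      by_contra hc
      push Not at hc
      have h1 : ∑ i, grad l b (cst a) i * cst a i ≤ ∑ i, C * cst a i := by
        rw [grad_dot]
        have h2 := hQ a
        have h3 : ∑ i, l i * cst a i ≤ ∑ i, C * cst a i := by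
          refine Finset.sum_le_sum fun i _ => ?_
          have h4 := (hC i i).2.2
          have h5 := le_abs_self (l i)
          exact mul_le_mul_of_nonneg_right (by linarith) (by simp [cst])
        linarith
      have h2 : ∀ i ∈ Finset.univ, C * cst a i ≤ grad l b (cst a) i * cst a i := by
        intro i _
        by_cases hi : a i = 0
        · simp [cst, hi]
        · exact mul_le_mul_of_nonneg_right (hc i hi).le (by simp [cst])
      have hne : ∃ i, a i ≠ 0 := by
        by_contra hc2
        push Not at hc2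
        have : cst a = 0 := by ext i; simp [cst, hc2 i]
        have h3 := hA1 N
        rw [← ha, this] at h3
        simp [F] at h3
        linarith
      obtain ⟨i, hi⟩ := hne
      have h3 : ∑ i, C * cst a i < ∑ i, grad l b (cst a) i * cst a i := by
        refine Finset.sum_lt_sum h2 ⟨i, Finset.mem_univ i, ?_⟩
        have h4 : (0 : ℤ) < cst a i := by simp only [cst]; exact_mod_cast Nat.pos_of_ne_zero hi
        exact mul_lt_mul_of_pos_right (hc i hi) h4
      linarith
    obtain ⟨i, hi, hiC⟩ := hex
    intro j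
    exact ⟨by have := hswap i j hi; linarith, hdown j⟩
  -- an increasing sequence of records
  let s : ℕ → ℤ := fun k => Nat.rec (c + 1) (fun _ N => F c l b (cst (A N)) + 1) k
  have hs0 : s 0 = c + 1 := rfl
  have hs1 : ∀ k, s (k + 1) = F c l b (cst (A (s k))) + 1 := fun k => rfl
  have hmono : StrictMono s := by
    refine strictMono_nat_of_lt_succ fun k => ?_
    rw [hs1]
    have := hA1 (s k)
    linarith
  have hsc : ∀ k, c < s k := by
    intro k
    have : s 0 ≤ s k := hmono.monotone (Nat.zero_le k)
    rw [hs0] at this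
    linarith
  have hFmono : ∀ i j, i < j → F c l b (cst (A (s i))) < F c l b (cst (A (s j))) := by
    intro i j hij
    have h1 : s (i + 1) ≤ s j := hmono.monotone hij
    rw [hs1] at h1
    have h2 := hA1 (s j)
    linarith
  -- code the support and the gradient on it
  let G : ℕ → Fin n → ℤ := fun k j => if A (s k) j = 0 then 2 * C + 1 else
    grad l b (cst (A (s k))) j
  have hG : ∀ k, G k ∈ Set.Icc (fun _ : Fin n => -|C| - 1) (fun _ : Fin n => 2 * |C| + 1) := by
    intro k
    have hle : C ≤ |C| := le_abs_self C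
    have hle2 : -|C| ≤ C := neg_abs_le C
    have hC0 := abs_nonneg C
    constructor
    · intro j
      show -|C| - 1 ≤ G k j
      simp only [G]
      split_ifs with h
      · by_cases hn : 0 ≤ C
        · linarith
        · -- C is nonnegative because it bounds an absolute value
          have := (hC j j).2.2
          have h3 := abs_nonneg (l j)
          linarith
      · have := (grad_bound (s k) (hsc k) j).2 h
        linarith
    · intro j
      show G k j ≤ 2 * |C| + 1
      simp only [G]
      split_ifs with h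
      · linarith
      · have := (grad_bound (s k) (hsc k) j).1
        linarith
  haveI : Finite (Set.Icc (fun _ : Fin n => -|C| - 1) (fun _ : Fin n => 2 * |C| + 1)) :=
    (Set.finite_Icc _ _).to_subtype
  obtain ⟨y, hy⟩ := Finite.exists_infinite_fiber (fun k : ℕ =>
    (⟨G k, hG k⟩ : Set.Icc (fun _ : Fin n => -|C| - 1) (fun _ : Fin n => 2 * |C| + 1)))
  haveI := hy
  let e := Nat.orderEmbeddingOfSet ((fun k : ℕ =>
    (⟨G k, hG k⟩ : Set.Icc (fun _ : Fin n => -|C| - 1) (fun _ : Fin n => 2 * |C| + 1))) ⁻¹' {y})
  have he : ∀ m, G (e m) = y.1 := by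
    intro m
    have h1 : e m ∈ ((fun k : ℕ =>
      (⟨G k, hG k⟩ : Set.Icc (fun _ : Fin n => -|C| - 1) (fun _ : Fin n => 2 * |C| + 1))) ⁻¹'
        {y}) := by
      have h0 := Nat.orderEmbeddingOfSet_range ((fun k : ℕ =>
        (⟨G k, hG k⟩ : Set.Icc (fun _ : Fin n => -|C| - 1) (fun _ : Fin n => 2 * |C| + 1))) ⁻¹'
          {y})
      rw [← h0]
      exact Set.mem_range_self m
    have h2 := congrArg Subtype.val (Set.mem_singleton_iff.1 h1)
    exact h2
  obtain ⟨g, hg⟩ := (Set.isPWO_of_wellQuasiOrderedLE (Set.univ : Set (Fin n → ℕ))).exists_monotone_subseq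
    (f := fun m => A (s (e m))) (fun _ => Set.mem_univ _)
  have hle : A (s (e (g 0))) ≤ A (s (e (g 1))) := hg (Nat.zero_le 1)
  have hlt : e (g 0) < e (g 1) := e.strictMono (g.strictMono Nat.zero_lt_one)
  have hFlt := hFmono _ _ hlt
  have hGe : G (e (g 0)) = G (e (g 1)) := by rw [he, he]
  set a := A (s (e (g 0))) with ha
  set a' := A (s (e (g 1))) with ha'
  have hsupp : ∀ i, a i = 0 ↔ a' i = 0 := by
    intro i
    have h1 := congrFun hGe i
    simp only [G] at h1
    rw [← ha, ← ha'] at h1
    have g1 := (grad_bound (s (e (g 0))) (hsc _) i).1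
    have g2 := (grad_bound (s (e (g 1))) (hsc _) i).1
    rw [← ha] at g1
    rw [← ha'] at g2
    by_cases h2 : a i = 0
    · by_cases h3 : a' i = 0
      · simp [h2, h3]
      · rw [if_pos h2, if_neg h3] at h1; linarith
    · by_cases h3 : a' i = 0
      · rw [if_neg h2, if_pos h3] at h1; linarith
      · simp [h2, h3]
  let w : Fin n → ℕ := fun i => a' i - a i
  have hw : cst a' = cst a + cst w := by
    ext i
    have := hle i
    simp only [cst, Pi.add_apply, w]
    push_cast [this]; ring
  have hker : ∀ i, a i ≠ 0 → ∑ j, (b i j + b j i) * cst w j = 0 := by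
    intro i hi
    have h1 := congrFun hGe i
    simp only [G] at h1
    rw [← ha, ← ha', if_neg hi, if_neg (fun h => hi ((hsupp i).2 h))] at h1
    unfold grad at h1
    rw [hw] at h1
    have h2 : ∑ j, (b i j + b j i) * (cst a + cst w) j =
        ∑ j, (b i j + b j i) * cst a j + ∑ j, (b i j + b j i) * cst w j := by
      rw [← Finset.sum_add_distrib]
      exact Finset.sum_congr rfl fun j _ => by simp only [Pi.add_apply]; ring
    rw [h2] at h1
    linarith
  have hQ0 : Qf b (cst w) = 0 := by
    have h1 := grad_dot (0 : Fin n → ℤ) b (cst w)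
    have h2 : ∑ i, grad (0 : Fin n → ℤ) b (cst w) i * cst w i = 0 := by
      refine Finset.sum_eq_zero fun i _ => ?_
      by_cases hi : a i = 0
      · have h3 : a' i = 0 := (hsupp i).1 hi
        simp [cst, w, h3]
      · unfold grad
        rw [hker i hi]
        simp
    rw [h2] at h1
    simp only [Pi.zero_apply, zero_mul, Finset.sum_const_zero, zero_add] at h1
    linarith
  refine hray a w (Or.inr ⟨hQ0, ?_⟩)
  rw [hw, F_add, hQ0] at hFlt
  linarith

end quad

end Pool.Agent.Helper626.Quartic.Lower
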