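import Mathlib
import Pool.Agent.Helper626.Quartic.Gadget

set_option autoImplicit false

namespace Pool.Agent.Helper626.Quartic

open MvPolynomial NE

theorem poly_pair {γ : Type} (P : Poly γ) : ∃ a b : NE (γ ⊕ Fin 3), ∀ v : γ ⊕ Fin 3 → ℕ,
    P (fun i => v (Sum.inl i)) = (val v a : ℤ) - val v b := by
  refine Poly.induction (C := fun P => ∃ a b : NE (γ ⊕ Fin 3), ∀ v : γ ⊕ Fin 3 → ℕ,
    P (fun i => v (Sum.inl i)) = (val v a : ℤ) - val v b) ?_ ?_ ?_ ?_ P
  · intro i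
    exact ⟨NE.var (Sum.inl i), NE.const 0, fun v => by simp [val]⟩
  · intro n
    exact ⟨NE.const n.toNat, NE.const (-n).toNat, fun v => by
      simp only [val, Poly.const_apply]; omega⟩
  · rintro f g ⟨a, b, h⟩ ⟨c, d, h'⟩
    refine ⟨NE.add a d, NE.add b c, fun v => ?_⟩
    simp only [val, Poly.sub_apply, h v, h' v, Nat.cast_add]
    ring
  · rintro f g ⟨a, b, h⟩ ⟨c, d, h'⟩
    refine ⟨NE.add (NE.mul a c) (NE.mul b d), NE.add (NE.mul a d) (NE.mul b c), fun v => ?_⟩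
    simp only [val, Poly.mul_apply, h v, h' v, Nat.cast_add, Nat.cast_mul]
    ring

theorem strong {x l : ℤ} (hx : 0 ≤ x) (h : ((x + 1) * l) ^ 2 < x) : l = 0 := by
  by_contra hne
  have h1 : 1 ≤ l ^ 2 := by
    have : 0 < l ^ 2 := by positivity
    omega
  have h2 : ((x + 1) * l) ^ 2 = (x + 1) ^ 2 * l ^ 2 := by ring
  have h3 := mul_le_mul_of_nonneg_left h1 (sq_nonneg (x + 1))
  rw [h2] at h
  nlinarith

theorem kbounds {x κ k1 : ℤ} (hκ : 0 ≤ κ) (h1 : 0 ≤ k1) (h2 : k1 ≤ 2 * κ)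
    (h : (x - κ * κ - k1) ^ 2 < x) : x ≤ (κ + 3) ^ 2 ∧ (κ + 3) ^ 2 ≤ 4 * x + 18 := by
  have hx : 0 < x := lt_of_le_of_lt (sq_nonneg _) h
  constructor
  · by_contra hc
    push Not at hc
    have e : 4 * κ + 9 < x - κ * κ - k1 := by nlinarith
    nlinarith
  · have h3 : -(x - κ * κ - k1) ≤ (x - κ * κ - k1) ^ 2 := by
      nlinarith [sq_nonneg (x - κ * κ - k1 + 1), sq_nonneg (x - κ * κ - k1),
        Int.le_self_sq (-(x - κ * κ - k1))]
    nlinarith [sq_nonneg (κ - 3)]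

section
variable {γ : Type} (x0 : γ) (a b : NE (γ ⊕ Fin 3))

noncomputable def conL : List (MvPolynomial (Idx (γ ⊕ Fin 3)) ℤ) :=
  [X (Sum.inl (Sum.inl x0)) - X (Sum.inl (Sum.inr 0)) * X (Sum.inl (Sum.inr 0))
      - X (Sum.inl (Sum.inr 1)),
    (X (Sum.inl (Sum.inl x0)) + C 1) *
      (X (Sum.inl (Sum.inr 1)) + X (Sum.inl (Sum.inr 2)) - C 2 * X (Sum.inl (Sum.inr 0))),
    (X (Sum.inl (Sum.inl x0)) + C 1) * (lin a - lin b),
    (X (Sum.inl (Sum.inl x0)) + C 1) * (X (Sum.inl (Sum.inl x0)) -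
      lin (NE.mul (NE.var (Sum.inr 0)) (NE.var (Sum.inr 0))) - X (Sum.inl (Sum.inr 1)))] ++
  (cons (Sum.inl x0) (Sum.inr 0) a ++ (cons (Sum.inl x0) (Sum.inr 0) b ++
    cons (Sum.inl x0) (Sum.inr 0) (NE.mul (NE.var (Sum.inr 0)) (NE.var (Sum.inr 0)))))

noncomputable def bigF : MvPolynomial (Idx (γ ⊕ Fin 3)) ℤ :=
  X (Sum.inl (Sum.inl x0)) - ((conL x0 a b).map fun q => q ^ 2).sum

theorem td_conL : ∀ q ∈ conL x0 a b, q.totalDegree ≤ 2 := by
  intro q hq
  simp only [conL, List.mem_append, List.mem_cons, List.not_mem_nil, or_false] at hq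
  have hx1 : (X (Sum.inl (Sum.inl x0)) + C 1 :
      MvPolynomial (Idx (γ ⊕ Fin 3)) ℤ).totalDegree ≤ 1 := td_add (td_X _ le_rfl) (td_C _)
  rcases hq with (hq | hq | hq | hq) | hq | hq | hq
  · rw [hq]
    exact td_sub (td_sub (td_X _ (by norm_num)) (td_mul (td_X _ le_rfl) (td_X _ le_rfl) le_rfl))
      (td_X _ (by norm_num))
  · rw [hq]
    exact td_mul hx1 (td_sub (td_add (td_X _ le_rfl) (td_X _ le_rfl))
      (td_mul (td_C _ (d := 0)) (td_X _ le_rfl) le_rfl)) le_rfl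
  · rw [hq]
    exact td_mul hx1 (td_sub (td_lin a) (td_lin b)) le_rfl
  · rw [hq]
    exact td_mul hx1 (td_sub (td_sub (td_X _ le_rfl) (td_lin _)) (td_X _ le_rfl)) le_rfl
  · exact td_cons _ _ _ q hq
  · exact td_cons _ _ _ q hq
  · exact td_cons _ _ _ q hq

theorem td_bigF : (bigF x0 a b).totalDegree ≤ 4 :=
  td_sub (td_X _ (by norm_num)) (td_sumsq _ (td_conL x0 a b))

theorem bigF_pos (t : Idx (γ ⊕ Fin 3) → ℕ) (h : 0 < ev t (bigF x0 a b)) :
    val (fun i => t (Sum.inl i)) a = val (fun i => t (Sum.inl i)) b ∧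
    ev t (bigF x0 a b) = t (Sum.inl (Sum.inl x0)) := by
  have hF : ev t (bigF x0 a b) = (t (Sum.inl (Sum.inl x0)) : ℤ) -
      ((conL x0 a b).map fun q => (ev t q) ^ 2).sum := by
    rw [← ev_sumsq]
    simp [bigF]
  rw [hF] at h ⊢
  obtain ⟨hs0, hs⟩ := sq_le_sumsq t (conL x0 a b)
  have hlt : ∀ q ∈ conL x0 a b, (ev t q) ^ 2 < (t (Sum.inl (Sum.inl x0)) : ℤ) :=
    fun q hq => lt_of_le_of_lt (hs q hq) (by linarith)
  have hsub : ∀ p q : MvPolynomial (Idx (γ ⊕ Fin 3)) ℤ, ev t (p - q) = ev t p - ev t q :=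
    fun p q => map_sub _ _ _
  have hmul : ∀ p q : MvPolynomial (Idx (γ ⊕ Fin 3)) ℤ, ev t (p * q) = ev t p * ev t q :=
    fun p q => map_mul _ _ _
  have hadd : ∀ p q : MvPolynomial (Idx (γ ⊕ Fin 3)) ℤ, ev t (p + q) = ev t p + ev t q :=
    fun p q => map_add _ _ _
  have hX : ∀ i, ev t (X i) = (t i : ℤ) := fun i => by simp
  have hC : ∀ c : ℤ, ev t (C c) = c := fun c => by simp
  have hx0 : (0 : ℤ) ≤ (t (Sum.inl (Sum.inl x0)) : ℤ) := by positivity
  have m0 : X (Sum.inl (Sum.inl x0)) - X (Sum.inl (Sum.inr 0)) * X (Sum.inl (Sum.inr 0))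
      - X (Sum.inl (Sum.inr 1)) ∈ conL x0 a b := by simp [conL]
  have m1 : (X (Sum.inl (Sum.inl x0)) + C 1) *
      (X (Sum.inl (Sum.inr 1)) + X (Sum.inl (Sum.inr 2)) - C 2 * X (Sum.inl (Sum.inr 0))) ∈
      conL x0 a b := by simp [conL]
  have m2 : (X (Sum.inl (Sum.inl x0)) + C 1) * (lin a - lin b) ∈ conL x0 a b := by simp [conL]
  have m3 : (X (Sum.inl (Sum.inl x0)) + C 1) * (X (Sum.inl (Sum.inl x0)) -
      lin (NE.mul (NE.var (Sum.inr 0)) (NE.var (Sum.inr 0))) - X (Sum.inl (Sum.inr 1))) ∈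
      conL x0 a b := by simp [conL]
  have e0 := hlt _ m0
  have e1 := hlt _ m1
  have e2 := hlt _ m2
  have e3 := hlt _ m3
  simp only [hsub, hmul, hadd, hX, hC] at e0 e1 e2 e3
  have g1 := strong hx0 e1
  have g2 := strong hx0 e2
  have g3 := strong hx0 e3
  obtain ⟨b1, b2⟩ := kbounds (by positivity) (by positivity) (by
    have : (0 : ℤ) ≤ (t (Sum.inl (Sum.inr 2)) : ℤ) := by positivity
    linarith) e0
  obtain ⟨ca, ca0⟩ := cons_spec t (Sum.inl x0) (Sum.inr 0) b1 b2 a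
    (fun q hq => hlt q (by simp [conL, hq]))
  obtain ⟨cb, cb0⟩ := cons_spec t (Sum.inl x0) (Sum.inr 0) b1 b2 b
    (fun q hq => hlt q (by simp [conL, hq]))
  obtain ⟨cc, cc0⟩ := cons_spec t (Sum.inl x0) (Sum.inr 0) b1 b2
    (NE.mul (NE.var (Sum.inr 0)) (NE.var (Sum.inr 0)))
    (fun q hq => hlt q (by
      simp only [conL, List.mem_append]
      exact Or.inr (Or.inr (Or.inr hq))))
  refine ⟨?_, ?_⟩
  · have : (val (fun i => t (Sum.inl i)) a : ℤ) = val (fun i => t (Sum.inl i)) b := by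
      rw [← ca, ← cb]; linarith
    exact_mod_cast this
  · rw [sumsq_zero t (conL x0 a b), sub_zero]
    intro q hq
    simp only [conL, List.mem_append, List.mem_cons, List.not_mem_nil, or_false] at hq
    rcases hq with (hq | hq | hq | hq) | hq | hq | hq
    · rw [hq]
      simp only [hsub, hmul, hX]
      rw [cc] at g3
      simp only [val, Nat.cast_mul] at g3
      linarith
    · rw [hq]
      simp only [hsub, hmul, hadd, hX, hC, g1, mul_zero]
    · rw [hq]
      simp only [hsub, hmul, hadd, hX, hC, g2, mul_zero]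
    · rw [hq]
      simp only [hsub, hmul, hadd, hX, hC, g3, mul_zero]
    · exact ca0 q hq
    · exact cb0 q hq
    · exact cc0 q hq

theorem bigF_sol (v : γ → ℕ)
    (hab : ∀ w : γ ⊕ Fin 3 → ℕ, (∀ i, w (Sum.inl i) = v i) → val w a = val w b) :
    ∃ t : Idx (γ ⊕ Fin 3) → ℕ, ev t (bigF x0 a b) = v x0 := by
  set s := Nat.sqrt (v x0) with hs
  have hs1 : s * s ≤ v x0 := Nat.sqrt_le (v x0)
  have hs2 : v x0 ≤ s * s + s + s := Nat.sqrt_le_add (v x0)
  let w : γ ⊕ Fin 3 → ℕ := Sum.elim v ![s, v x0 - s * s, 2 * s - (v x0 - s * s)]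
  have hw0 : w (Sum.inr 0) = s := rfl
  have hw1 : w (Sum.inr 1) = v x0 - s * s := rfl
  have hw2 : w (Sum.inr 2) = 2 * s - (v x0 - s * s) := rfl
  have hwx : w (Sum.inl x0) = v x0 := rfl
  have hval := hab w fun i => rfl
  refine ⟨sol (Sum.inl x0) (Sum.inr 0) w, ?_⟩
  set t := sol (Sum.inl x0) (Sum.inr 0) w with ht
  have hF : ev t (bigF x0 a b) = (t (Sum.inl (Sum.inl x0)) : ℤ) -
      ((conL x0 a b).map fun q => (ev t q) ^ 2).sum := by
    rw [← ev_sumsq]
    simp [bigF]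
  have hsub : ∀ p q : MvPolynomial (Idx (γ ⊕ Fin 3)) ℤ, ev t (p - q) = ev t p - ev t q :=
    fun p q => map_sub _ _ _
  have hmul : ∀ p q : MvPolynomial (Idx (γ ⊕ Fin 3)) ℤ, ev t (p * q) = ev t p * ev t q :=
    fun p q => map_mul _ _ _
  have hadd : ∀ p q : MvPolynomial (Idx (γ ⊕ Fin 3)) ℤ, ev t (p + q) = ev t p + ev t q :=
    fun p q => map_add _ _ _
  have hX : ∀ i, ev t (X (Sum.inl i)) = (w i : ℤ) := fun i => by simp [ht, sol]
  have hC : ∀ c : ℤ, ev t (C c) = c := fun c => by simp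
  have sa := sol_spec (Sum.inl x0) (Sum.inr 0) w a
  have sb := sol_spec (Sum.inl x0) (Sum.inr 0) w b
  have sc := sol_spec (Sum.inl x0) (Sum.inr 0) w
    (NE.mul (NE.var (Sum.inr 0)) (NE.var (Sum.inr 0)))
  rw [hF, sumsq_zero t (conL x0 a b), sub_zero]
  · simp [ht, sol, hwx]
  · intro q hq
    simp only [conL, List.mem_append, List.mem_cons, List.not_mem_nil, or_false] at hq
    rcases hq with (hq | hq | hq | hq) | hq | hq | hq
    · rw [hq]
      simp only [hsub, hmul, hX, hw0, hw1, hwx]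
      push_cast [hs1]
      ring
    · rw [hq]
      have h2 : v x0 - s * s ≤ 2 * s := by omega
      simp only [hsub, hmul, hadd, hX, hC, hw0, hw1, hw2, hwx]
      push_cast [hs1, h2]
      ring
    · rw [hq]
      simp only [hsub, hmul, hadd, hX, hC]
      rw [sa.1, sb.1, hval]
      ring
    · rw [hq]
      simp only [hsub, hmul, hadd, hX, hC]
      rw [sc.1]
      simp only [val, hw0, hw1, hwx]
      push_cast [hs1]
      ring
    · exact sa.2 q hq
    · exact sb.2 q hq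
    · exact sc.2 q hq

end

/-- transfer to finitely many variables -/
theorem to_fin {σ : Type} (F : MvPolynomial σ ℤ) : ∃ (n : ℕ) (f : MvPolynomial (Fin n) ℤ),
    f.totalDegree ≤ F.totalDegree ∧
    ∀ m : ℤ, (∃ t : σ → ℕ, ev t F = m) ↔ ∃ x : Fin n → ℕ, ev x f = m := by
  obtain ⟨n, g, hg, q, hq⟩ := exists_fin_rename F
  refine ⟨n, q, ?_, ?_⟩
  · rw [hq]
    unfold totalDegree
    refine Finset.sup_le fun s hs => ?_
    have hmem : s.mapDomain g ∈ (rename g q).support := by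
      rw [mem_support_iff, coeff_rename_mapDomain g hg]
      exact mem_support_iff.1 hs
    have h2 := le_totalDegree hmem
    unfold totalDegree at h2
    rwa [Finsupp.sum_mapDomain_index_inj hg] at h2
  · intro m
    constructor
    · rintro ⟨t, ht⟩
      refine ⟨fun i => t (g i), ?_⟩
      rw [← ht, hq]
      simp only [ev, eval_rename]
      rfl
    · rintro ⟨x, hx⟩
      classical
      refine ⟨fun i => if h : ∃ j, g j = i then x h.choose else 0, ?_⟩
      rw [← hx, hq]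
      simp only [ev, eval_rename]
      have hfun : ((fun i => (((if h : ∃ j, g j = i then x h.choose else 0 : ℕ)) : ℤ)) ∘ g) =
          fun i => (x i : ℤ) := by
        funext j
        have h : ∃ j', g j' = g j := ⟨j, rfl⟩
        have h2 : h.choose = j := hg h.choose_spec
        simp only [Function.comp_apply, dif_pos h, h2]
      rw [hfun]

/-- The positive values of a suitable quartic polynomial are exactly the positive members of a
Diophantine set. -/
theorem quartic_of_dioph {p : ℕ → Prop} (h : Dioph {v : Unit → ℕ | p (v ())}) :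
    ∃ (n : ℕ) (f : MvPolynomial (Fin n) ℤ), f.totalDegree ≤ 4 ∧
      ∀ m : ℤ, (0 < m ∧ ∃ x : Fin n → ℕ, ev x f = m) ↔ ∃ s : ℕ, p s ∧ 0 < s ∧ m = s := by
  obtain ⟨β, P, hP⟩ := h
  obtain ⟨a, b, hab⟩ := poly_pair P
  obtain ⟨n, f, hf, hv⟩ := to_fin (bigF (Sum.inl ()) a b)
  refine ⟨n, f, hf.trans (td_bigF _ _ _), fun m => ?_⟩
  constructor
  · rintro ⟨hm, hx⟩
    obtain ⟨t, ht⟩ := (hv m).2 hx
    rw [← ht] at hm
    obtain ⟨h1, h2⟩ := bigF_pos (Sum.inl ()) a b t hm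
    have h3 := hab fun i => t (Sum.inl i)
    rw [h1, sub_self] at h3
    refine ⟨t (Sum.inl (Sum.inl (Sum.inl ()))), ?_, ?_, ?_⟩
    · have h4 := (hP fun _ => t (Sum.inl (Sum.inl (Sum.inl ())))).2
        ⟨fun i => t (Sum.inl (Sum.inl (Sum.inr i))), by
          rw [← h3]
          congr 1
          ext i
          rcases i with i | i
          · rfl
          · rfl⟩
      exact h4
    · rw [h2] at hm
      exact_mod_cast hm
    · rw [← ht, h2]
  · rintro ⟨s, hs, hs0, rfl⟩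
    refine ⟨by exact_mod_cast hs0, (hv _).1 ?_⟩
    obtain ⟨u, hu⟩ := (hP fun _ => s).1 hs
    obtain ⟨t, ht⟩ := bigF_sol (Sum.inl ()) a b (Sum.elim (fun _ => s) u) (by
      intro w hw
      have h3 := hab w
      have h4 : (fun i => w (Sum.inl i)) = Sum.elim (fun _ => s) u := by
        ext i; exact hw i
      rw [h4, hu] at h3
      have : (val w a : ℤ) = val w b := by linarith
      exact_mod_cast this)
    exact ⟨t, by rw [ht]; rfl⟩

/-- Every recursively enumerable set of positive integers is the set of positive values, at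
natural numbers, of an integer polynomial of total degree at most four. -/
theorem quartic_of_re {p : ℕ → Prop} (h : REPred p) :
    ∃ (n : ℕ) (f : MvPolynomial (Fin n) ℤ), f.totalDegree ≤ 4 ∧
      ∀ m : ℤ, (0 < m ∧ ∃ x : Fin n → ℕ, ev x f = m) ↔ ∃ s : ℕ, p s ∧ 0 < s ∧ m = s :=
  quartic_of_dioph (dprm h)

end Pool.Agent.Helper626.Quartic
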