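import Mathlib
import Pool.Agent.Helper626.Quartic.Lower

set_option autoImplicit false

namespace Pool.Agent.Helper626.Quartic.Lower

open MvPolynomial Finset

theorem split_mon {n : ℕ} (m : Fin n →₀ ℕ) (h : m ≠ 0) :
    ∃ i, ∃ m' : Fin n →₀ ℕ, m = Finsupp.single i 1 + m' := by
  obtain ⟨i, hi⟩ := Finsupp.ne_iff.1 h
  refine ⟨i, m - Finsupp.single i 1, ?_⟩
  rw [add_tsub_cancel_of_le]
  rw [Finsupp.single_le_iff]
  exact Nat.one_le_iff_ne_zero.2 hi

theorem mon_form {n : ℕ} (m : Fin n →₀ ℕ) (h : (m.sum fun _ e => e) ≤ 2) :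
    m = 0 ∨ (∃ i, m = Finsupp.single i 1) ∨ ∃ i j, m = Finsupp.single i 1 + Finsupp.single j 1 := by
  have hadd : ∀ (i : Fin n) (m' : Fin n →₀ ℕ), ((Finsupp.single i 1 + m').sum fun _ e => e) =
      1 + m'.sum fun _ e => e := by
    intro i m'
    rw [Finsupp.sum_add_index' (fun _ => rfl) (fun _ _ _ => rfl), Finsupp.sum_single_index rfl]
  by_cases h0 : m = 0
  · exact Or.inl h0
  obtain ⟨i, m', hm⟩ := split_mon m h0
  rw [hm, hadd] at h
  by_cases h1 : m' = 0
  · exact Or.inr (Or.inl ⟨i, by rw [hm, h1, add_zero]⟩)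
  obtain ⟨j, m'', hm'⟩ := split_mon m' h1
  rw [hm', hadd] at h
  by_cases h2 : m'' = 0
  · exact Or.inr (Or.inr ⟨i, j, by rw [hm, hm', h2, add_zero]⟩)
  obtain ⟨k, m3, hm''⟩ := split_mon m'' h2
  rw [hm'', hadd] at h
  omega

/-- functions of the form `F c l b` -/
def IsQ {n : ℕ} (g : (Fin n → ℤ) → ℤ) : Prop :=
  ∃ (c : ℤ) (l : Fin n → ℤ) (b : Fin n → Fin n → ℤ), ∀ x, g x = F c l b x

theorem isQ_add {n : ℕ} {g h : (Fin n → ℤ) → ℤ} (hg : IsQ g) (hh : IsQ h) :
    IsQ (fun x => g x + h x) := by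
  obtain ⟨c, l, b, e⟩ := hg
  obtain ⟨c', l', b', e'⟩ := hh
  refine ⟨c + c', fun i => l i + l' i, fun i j => b i j + b' i j, fun x => ?_⟩
  show g x + h x = _
  rw [e, e']
  unfold F
  simp only [add_mul, Finset.sum_add_distrib]
  ring

theorem isQ_zero {n : ℕ} : IsQ (fun _ : Fin n → ℤ => 0) :=
  ⟨0, 0, 0, fun x => by simp [F]⟩

theorem isQ_sum {n : ℕ} {ι : Type*} (s : Finset ι) (g : ι → (Fin n → ℤ) → ℤ)
    (h : ∀ i ∈ s, IsQ (g i)) : IsQ (fun x => ∑ i ∈ s, g i x) := by
  classical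
  induction s using Finset.induction_on with
  | empty => simpa using isQ_zero
  | insert a s ha ih =>
    simp only [Finset.sum_insert ha]
    exact isQ_add (h a (by simp)) (ih fun i hi => h i (by simp [hi]))

theorem normal_form {n : ℕ} (f : MvPolynomial (Fin n) ℤ) (hd : f.totalDegree ≤ 2) :
    IsQ (fun x => eval x f) := by
  have e : (fun x : Fin n → ℤ => eval x f) =
      fun x => ∑ d ∈ f.support, eval x (monomial d (coeff d f)) := by
    funext x
    conv_lhs => rw [f.as_sum]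
    rw [map_sum]
  rw [e]
  refine isQ_sum _ _ fun d hdm => ?_
  have h1 := (le_totalDegree hdm).trans hd
  rcases mon_form d h1 with h | ⟨i, h⟩ | ⟨i, j, h⟩
  · refine ⟨coeff d f, 0, 0, fun x => ?_⟩
    rw [h]
    simp [F, eval_monomial]
  · refine ⟨0, Pi.single i (coeff d f), 0, fun x => ?_⟩
    generalize coeff d f = z
    rw [h]
    simp [F, eval_monomial, Pi.single_apply]
  · refine ⟨0, 0, fun k m => if k = i ∧ m = j then coeff d f else 0, fun x => ?_⟩
    generalize coeff d f = z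
    have h2 : (monomial d z : MvPolynomial (Fin n) ℤ) = C z * (X i * X j) := by
      rw [h, X, X, monomial_mul, C_mul_monomial]
      simp
    rw [h2]
    simp only [F, map_mul, eval_C, eval_X, Pi.zero_apply, zero_mul, Finset.sum_const_zero,
      zero_add, ite_and]
    rw [Finset.sum_eq_single i]
    · rw [Finset.sum_eq_single j]
      · simp
      · intro k _ hk; simp [hk]
      · simp
    · intro k _ hk
      refine Finset.sum_eq_zero fun m _ => ?_
      simp [hk]
    · simp

/-- No integer polynomial of total degree at most two has the primes as its set of positive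
values at natural numbers. -/
theorem no_quadratic {n : ℕ} (f : MvPolynomial (Fin n) ℤ) (hd : f.totalDegree ≤ 2)
    (hpos : ∀ x : Fin n → ℕ, 0 < eval (fun i => (x i : ℤ)) f →
      ∃ p : ℕ, p.Prime ∧ eval (fun i => (x i : ℤ)) f = p)
    (hall : ∀ p : ℕ, p.Prime → ∃ x : Fin n → ℕ, eval (fun i => (x i : ℤ)) f = p) : False := by
  obtain ⟨c, l, b, e⟩ := normal_form f hd
  simp only at e
  refine main c l b (fun x hx => ?_) (fun N => ?_)
  · have h := e (cst x)
    rw [← h] at hx ⊢
    exact hpos x hx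
  · obtain ⟨p, hp1, hp⟩ := Nat.exists_infinite_primes N.toNat
    obtain ⟨x, hx⟩ := hall p hp
    refine ⟨x, ?_⟩
    have h := e (cst x)
    rw [← h]
    have h2 : eval (cst x) f = p := hx
    rw [h2]
    have : N ≤ N.toNat := Int.self_le_toNat N
    have h3 : (N.toNat : ℤ) ≤ p := by exact_mod_cast hp1
    linarith

end Pool.Agent.Helper626.Quartic.Lower
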