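import Mathlib
import Pool.Agent.Helper626.Quartic.Main
import Pool.Agent.Helper626.Quartic.NF

set_option autoImplicit false

namespace Pool.Agent.Helper626.Quartic

open MvPolynomial

theorem re_prime : REPred Nat.Prime := by
  refine ComputablePred.to_re (PrimrecPred.computablePred ?_)
  have h1 : PrimrecRel fun x y : ℕ => x < 2 ∨ y % x ≠ 0 := by
    refine PrimrecPred.or ?_ (PrimrecPred.not ?_)
    · exact Primrec.nat_lt.comp Primrec.fst (Primrec.const 2)
    · exact Primrec.eq.comp (Primrec.nat_mod.comp Primrec.snd Primrec.fst) (Primrec.const 0)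
  have h2 : PrimrecPred fun p : ℕ => 2 ≤ p ∧ ∀ x < p, (x < 2 ∨ p % x ≠ 0) :=
    PrimrecPred.and (Primrec.nat_le.comp (Primrec.const 2) Primrec.id)
      ((PrimrecRel.forall_lt h1).comp Primrec.id Primrec.id)
  refine h2.of_eq fun p => ?_
  rw [Nat.prime_def_lt']
  refine and_congr_right fun _ => ?_
  constructor
  · intro h m hm hmp hd
    rcases h m hmp with h3 | h3
    · omega
    · exact h3 (Nat.mod_eq_zero_of_dvd hd)
  · intro h x hx
    by_cases h3 : x < 2
    · exact Or.inl h3
    · exact Or.inr fun h4 => h x (by omega) hx (Nat.dvd_of_mod_eq_zero h4)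

end Pool.Agent.Helper626.Quartic
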